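import Pool.Agent.H56R3.SUnit

set_option autoImplicit false

open IsDedekindDomain NumberField CategoryTheory
open scoped MatrixGroups

namespace Pool.Agent.Results.MP_e82a76_al.Undetected

/-- Let `K` be a number field, `ℓ` a prime, `S` a set of finite places of `K` containing all the
places above `ℓ`, `𝒪_{K,S}` the ring of `S`-integers and `n ≥ 1`. There is a nonzero class in
`H¹(GL_n(𝒪_{K,S}), 𝔽_ℓ)` which restricts to zero on every finite subgroup. -/
theorem result (K : Type) [Field K] [NumberField K] (ℓ : ℕ) [Fact ℓ.Prime]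
    (S : Set (HeightOneSpectrum (𝓞 K)))
    (hS : ∀ v : HeightOneSpectrum (𝓞 K), ((ℓ : ℕ) : 𝓞 K) ∈ v.asIdeal → v ∈ S)
    (n : ℕ) (hn : 1 ≤ n) :
    ∃ x : groupCohomology (Rep.trivial (ZMod ℓ) (GL (Fin n) (S.integer K)) (ZMod ℓ)) 1,
      x ≠ 0 ∧ ∀ G : Subgroup (GL (Fin n) (S.integer K)), Finite G →
        groupCohomology.map G.subtype (𝟙 (Rep.res G.subtype
          (Rep.trivial (ZMod ℓ) (GL (Fin n) (S.integer K)) (ZMod ℓ)))) 1 x = 0 := by
  obtain ⟨v, hv⟩ := H56R3.exists_prime_above K ℓ Fact.out
  obtain ⟨m, u1, hu1⟩ := H56R3.exists_surj K S v (hS v hv)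
  set A := Rep.trivial (ZMod ℓ) (GL (Fin n) (S.integer K)) (ZMod ℓ) with hA
  -- the homomorphism
  set χ : GL (Fin n) (S.integer K) → ZMod ℓ :=
    fun g => ((m (Additive.ofMul (Matrix.GeneralLinearGroup.det g)) : ℤ) : ZMod ℓ) with hχ
  have hχmul : ∀ g h, χ (g * h) = χ g + χ h := by
    intro g h
    simp only [hχ]
    rw [map_mul, ofMul_mul, map_add]; push_cast; rfl
  have hχfin : ∀ g, IsOfFinOrder g → χ g = 0 := by
    intro g hg
    simp only [hχ]
    have h1 : IsOfFinOrder (Matrix.GeneralLinearGroup.det g) :=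
      MonoidHom.isOfFinOrder Matrix.GeneralLinearGroup.det hg
    obtain ⟨k, hk, hk1⟩ := h1.exists_pow_eq_one
    have h2 : (k : ℤ) * m (Additive.ofMul (Matrix.GeneralLinearGroup.det g)) = 0 := by
      have : m (k • Additive.ofMul (Matrix.GeneralLinearGroup.det g)) = 0 := by
        rw [← ofMul_pow, hk1, ofMul_one, map_zero]
      rw [map_nsmul] at this
      simpa using this
    rcases mul_eq_zero.mp h2 with h3 | h3
    · exfalso; have : k = 0 := by exact_mod_cast h3
      omega
    · rw [h3]; simp
  -- a matrix of determinant `u1`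
  obtain ⟨g1, hg1⟩ : ∃ g1 : GL (Fin n) (S.integer K), χ g1 = 1 := by
    set i0 : Fin n := ⟨0, by omega⟩
    set M : Matrix (Fin n) (Fin n) (S.integer K) :=
      Matrix.diagonal (Function.update 1 i0 ((u1.toMul : (S.integer K)ˣ) : S.integer K)) with hM
    have hdet : M.det = ((u1.toMul : (S.integer K)ˣ) : S.integer K) := by
      rw [hM, Matrix.det_diagonal, Finset.prod_update_of_mem (Finset.mem_univ _)]
      simp
    have hunit : IsUnit M.det := by rw [hdet]; exact Units.isUnit _
    refine ⟨Matrix.GeneralLinearGroup.mk'' M hunit, ?_⟩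
    have h1 : Matrix.GeneralLinearGroup.det (Matrix.GeneralLinearGroup.mk'' M hunit) = u1.toMul := by
      apply Units.ext
      rw [Matrix.GeneralLinearGroup.val_det_apply]
      exact hdet
    simp only [hχ, h1, ofMul_toMul, hu1]
    simp
  -- the cocycle
  have hcoc : (χ : GL (Fin n) (S.integer K) → A) ∈ groupCohomology.cocycles₁ A := by
    rw [groupCohomology.mem_cocycles₁_iff]
    intro g h
    have : A.ρ g (χ h) = χ h := rfl
    rw [this, hχmul]; exact add_comm _ _
  set z : groupCohomology.cocycles₁ A := ⟨χ, hcoc⟩ with hz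
  refine ⟨groupCohomology.H1π A z, ?_, ?_⟩
  · intro h0
    rw [groupCohomology.H1π_eq_zero_iff] at h0
    obtain ⟨a, ha⟩ := h0
    have h1 : χ g1 = 0 := by
      have := congrFun ha g1
      rw [groupCohomology.d₀₁_hom_apply] at this
      have e : A.ρ g1 a = a := rfl
      rw [e, sub_self] at this
      exact this.symm
    rw [hg1] at h1
    exact one_ne_zero h1
  · intro G hG
    have h1 := groupCohomology.H1π_comp_map_apply (A := A) (B := Rep.res G.subtype A) G.subtype
      (𝟙 (Rep.res G.subtype A)) z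
    rw [h1]
    have h2 : groupCohomology.mapCocycles₁ G.subtype (𝟙 (Rep.res G.subtype A)) z = 0 := by
      apply Subtype.ext
      funext g
      change χ (g : GL (Fin n) (S.integer K)) = 0
      apply hχfin
      have : IsOfFinOrder g := isOfFinOrder_of_finite g
      exact MonoidHom.isOfFinOrder G.subtype this
    rw [h2, map_zero]

end Pool.Agent.Results.MP_e82a76_al.Undetected
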